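import Pool.Agent.Q202.SK.Gen
import Pool.Agent.Q202.SK.TaskCore

/-!
# Sketch-and-solve with a random orthonormal embedding is optimal among all algorithms using a random embedding

For `𝕜 = ℝ` (with `α = 1`) and `𝕜 = ℂ` (with `α = 0`), for every random embedding `Ω` (an `n × l` matrix of rank `l` almost surely, any
distribution) and every measurable algorithm which sees `Ω`, `Ωᴴ A` and `Ωᴴ B`, the worst case ratio
`E ‖B - A ALG‖² / ‖B - A A⁺ B‖²` over the matrices `A` of rank `r` and all `B ≠ A A⁺ B` is at least
`1 + (n - l) / (n - r) * r / (l - r - α)`.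

Proof. Take `A` with `r` independent Gaussian columns (and zero columns), `b = A (τ x) + g` with Gaussian `x`, `g`, and `τ → ∞`.
By rotation invariance we may assume that `Ωᴴ` is a function of the first `l` coordinates. The unobserved rows contribute
`(n - l) (1 + E ‖τ x - x'‖²)` for the estimate `x'`, the observed rows at least `l - r`, the optimal residual is `n - r`. Reflecting
`(x, g)` in the hyperplane orthogonal to `(c / τ, - A c)`, which does not change the observed data, gives
`E |τ x_j - x'_j|² ≥ 1 / (‖A c‖² + ‖c‖² / τ²)` if `c_j = 1`; for `τ → ∞` this is the expected inverse squared distance of a Gaussian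
column from the span of the others, an inverse chi-square moment.

The lemmas are due to helpers 4, 7, 73, 78, 82, 87, 102, 115, 118, 124, 132, 141, 158, 160, 161, 238, 240, 252, 275, 277, 290, 304,
309, 329, 332.
-/

set_option autoImplicit false

namespace Pool.Agent.Results.MP_467638_an.OptimalAmongAll

open Pool.Agent.Q202.SK

/-- **Q1, full answer (yes).** -/
theorem result : Optimal ℝ 1 ∧ Optimal ℂ 0 :=
  ⟨gen TaskCore.main gauR 1 (Or.inl ⟨rfl, rfl⟩), gen TaskCore.main gauC 0 (Or.inr ⟨rfl, rfl⟩)⟩

end Pool.Agent.Results.MP_467638_an.OptimalAmongAll
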